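import Pool.Agent.Helper85.LN2.Fr

/-!
# Packet LN2 MHALL (MP_d0c558_al, helper85): a weak form of M. Hall's theorem

A finitely generated subgroup of infinite index in a free group has a free complement, in the form that the
products `x₁ s x₂ s ... x_j s` determine their factors.  The finite set of cosets used here is the set of the cosets
`L u`, `u` a prefix of a generator (so the free group may have infinite rank).
-/

set_option autoImplicit false

namespace Pool.Agent.Helper50.LN2.MHALL

open FreeGroup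
open Pool.Agent.Helper85.LN2

variable {α : Type*}

/-- all prefixes of the word satisfy `Φ` -/
def AllPre (Φ : FreeGroup α → Prop) (w : List (α × Bool)) : Prop :=
  ∀ p, p <+: w → Φ (FreeGroup.mk p)

theorem prefix_append_cases {β : Type*} {p a b : List β} (h : p <+: a ++ b) :
    p <+: a ∨ ∃ q, q <+: b ∧ p = a ++ q := by
  rcases List.prefix_or_prefix_of_prefix h (List.prefix_append a b) with h1 | h1
  · exact Or.inl h1
  · right
    obtain ⟨q, rfl⟩ := h1
    exact ⟨q, (List.prefix_append_right_inj a).1 h, rfl⟩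

theorem AllPre.step {Φ : FreeGroup α → Prop} {w w' : List (α × Bool)} (h : AllPre Φ w)
    (hs : Red.Step w w') : AllPre Φ w' := by
  cases hs with
  | @not L₁ L₂ x b =>
    intro p hp
    rcases prefix_append_cases hp with h1 | ⟨q, hq, rfl⟩
    · exact h p (h1.trans (List.prefix_append _ _))
    · have h2 : (L₁ ++ (x, b) :: (x, !b) :: q) <+: (L₁ ++ (x, b) :: (x, !b) :: L₂) := by
        rw [List.prefix_append_right_inj]
        exact (List.prefix_cons_inj _).2 ((List.prefix_cons_inj _).2 hq)
      have h3 := h _ h2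
      have h4 : FreeGroup.mk (L₁ ++ (x, b) :: (x, !b) :: q) = FreeGroup.mk (L₁ ++ q) :=
        Quot.sound Red.Step.not
      rwa [h4] at h3

theorem AllPre.red {Φ : FreeGroup α → Prop} {w w' : List (α × Bool)} (h : AllPre Φ w)
    (hs : Red w w') : AllPre Φ w' := by
  induction hs with
  | refl => exact h
  | tail _ h2 ih => exact ih.step h2

theorem AllPre.toWord_mul [DecidableEq α] {Φ : FreeGroup α → Prop} {x y : FreeGroup α}
    (h1 : ∀ p, p <+: toWord x → Φ (FreeGroup.mk p))
    (h2 : ∀ p, p <+: toWord y → Φ (x * FreeGroup.mk p)) : AllPre Φ (toWord (x * y)) := by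
  rw [FreeGroup.toWord_mul]
  refine AllPre.red ?_ (reduce.red (L := toWord x ++ toWord y))
  intro p hp
  rcases prefix_append_cases hp with h | ⟨q, hq, rfl⟩
  · exact h1 p h
  · have := h2 q hq
    rwa [← FreeGroup.mul_mk, FreeGroup.mk_toWord]

/-- the prefixes of the generators -/
def UU [DecidableEq α] (T : Set (FreeGroup α)) : Set (FreeGroup α) :=
  {u | ∃ t, (t ∈ T ∨ t⁻¹ ∈ T ∨ t = 1) ∧ ∃ p, p <+: toWord t ∧ u = FreeGroup.mk p}

theorem UU_finite [DecidableEq α] {T : Set (FreeGroup α)} (hT : T.Finite) : (UU T).Finite := by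
  have hS : {t : FreeGroup α | t ∈ T ∨ t⁻¹ ∈ T ∨ t = 1}.Finite := by
    have h1 : {t : FreeGroup α | t⁻¹ ∈ T}.Finite := by
      have : {t : FreeGroup α | t⁻¹ ∈ T} = (fun x => x⁻¹) '' T := by
        ext t
        constructor
        · intro h
          exact ⟨t⁻¹, h, inv_inv t⟩
        · rintro ⟨x, hx, rfl⟩
          simpa using hx
      rw [this]
      exact hT.image _
    exact hT.union (h1.union (Set.finite_singleton 1))
  have h2 : UU T ⊆ ⋃ t ∈ {t : FreeGroup α | t ∈ T ∨ t⁻¹ ∈ T ∨ t = 1},
      FreeGroup.mk '' {p : List (α × Bool) | p <+: toWord t} := by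
    rintro u ⟨t, ht, p, hp, rfl⟩
    simp only [Set.mem_iUnion]
    exact ⟨t, ht, p, hp, rfl⟩
  refine (hS.biUnion ?_).subset h2
  intro t _
  apply Set.Finite.image
  have : {p : List (α × Bool) | p <+: toWord t} = {p | p ∈ (toWord t).inits} := by
    ext p
    simp
  rw [this]
  exact List.finite_toSet _

/-- the coset of `h` is one of the finitely many -/
def Good [DecidableEq α] (T : Set (FreeGroup α)) (L : Subgroup (FreeGroup α)) (h : FreeGroup α) : Prop :=
  ∃ u ∈ UU T, h * u⁻¹ ∈ L

theorem good_mul [DecidableEq α] {T : Set (FreeGroup α)} {L : Subgroup (FreeGroup α)} {l h : FreeGroup α}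
    (hl : l ∈ L) (hh : Good T L h) : Good T L (l * h) := by
  obtain ⟨u, hu, h1⟩ := hh
  exact ⟨u, hu, by rw [mul_assoc]; exact L.mul_mem hl h1⟩

theorem good_of_mul [DecidableEq α] {T : Set (FreeGroup α)} {L : Subgroup (FreeGroup α)} {l h : FreeGroup α}
    (hl : l ∈ L) (hh : Good T L (l * h)) : Good T L h := by
  have := good_mul (L.inv_mem hl) hh
  rwa [inv_mul_cancel_left] at this

theorem good_UU [DecidableEq α] {T : Set (FreeGroup α)} {L : Subgroup (FreeGroup α)} {u : FreeGroup α}
    (hu : u ∈ UU T) : Good T L u := ⟨u, hu, by rw [mul_inv_cancel]; exact L.one_mem⟩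

theorem good_one [DecidableEq α] {T : Set (FreeGroup α)} {L : Subgroup (FreeGroup α)} : Good T L 1 := by
  apply good_UU
  exact ⟨1, Or.inr (Or.inr rfl), [], List.nil_prefix, rfl⟩

/-- (A) all prefixes of elements of `L` are good -/
theorem allPre_mem [DecidableEq α] {T : Set (FreeGroup α)} {L : Subgroup (FreeGroup α)}
    (hTL : Subgroup.closure T = L) {l : FreeGroup α} (hl : l ∈ L) : AllPre (Good T L) (toWord l) := by
  have key : ∀ t : FreeGroup α, (t ∈ T ∨ t⁻¹ ∈ T ∨ t = 1) → t ∈ L → ∀ y, AllPre (Good T L) (toWord y) →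
      AllPre (Good T L) (toWord (t * y)) := by
    intro t ht htL y hy
    apply AllPre.toWord_mul
    · intro p hp
      exact good_UU ⟨t, ht, p, hp, rfl⟩
    · intro p hp
      exact good_mul htL (hy p hp)
  rw [← hTL] at hl
  induction hl using Subgroup.closure_induction_left with
  | one =>
    intro p hp
    rw [FreeGroup.toWord_one, List.prefix_nil] at hp
    subst hp
    exact good_one
  | mul_left x hx y hy ih =>
    exact key x (Or.inl hx) (hTL ▸ Subgroup.subset_closure hx) y ih
  | inv_mul_cancel x hx y hy ih =>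
    exact key x⁻¹ (Or.inr (Or.inl (by rwa [inv_inv]))) (L.inv_mem (hTL ▸ Subgroup.subset_closure hx)) y ih

theorem exists_not_good [DecidableEq α] {T : Set (FreeGroup α)} {L : Subgroup (FreeGroup α)}
    (hT : T.Finite) (hidx : L.index = 0) : ∃ g, ¬ Good T L g := by
  by_contra hcon
  push Not at hcon
  have hfin : Finite (UU T) := (UU_finite hT).to_subtype
  have hsurj : Function.Surjective (fun u : UU T => (((u : FreeGroup α)⁻¹ : FreeGroup α) : FreeGroup α ⧸ L)) := by
    intro q
    induction q using QuotientGroup.induction_on with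
    | H h =>
      obtain ⟨u, hu, h1⟩ := hcon h⁻¹
      refine ⟨⟨u, hu⟩, ?_⟩
      show ((u⁻¹ : FreeGroup α) : FreeGroup α ⧸ L) = h
      rw [QuotientGroup.eq]
      have h2 := L.inv_mem h1
      rw [mul_inv_rev, inv_inv, inv_inv] at h2
      rwa [inv_inv]
  have : Finite (FreeGroup α ⧸ L) := Finite.of_surjective _ hsurj
  exact Subgroup.index_ne_zero_of_finite hidx

/-- a minimal bad element -/
theorem exists_min [DecidableEq α] {T : Set (FreeGroup α)} {L : Subgroup (FreeGroup α)}
    (hT : T.Finite) (hidx : L.index = 0) :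
    ∃ g, ¬ Good T L g ∧ ∀ h, ¬ Good T L h → (toWord g).length ≤ (toWord h).length := by
  obtain ⟨g0, hg0⟩ := exists_not_good hT hidx
  obtain ⟨g, hg, hmin⟩ := (InvImage.wf (fun g : FreeGroup α => (toWord g).length) Nat.lt_wfRel.wf).has_min
    {g | ¬ Good T L g} ⟨g0, hg0⟩
  exact ⟨g, hg, fun h hh => not_lt.1 (hmin h hh)⟩

/-- (B) -/
theorem not_prefix [DecidableEq α] {T : Set (FreeGroup α)} {L : Subgroup (FreeGroup α)}
    (hTL : Subgroup.closure T = L) {g : FreeGroup α} (hg : ¬ Good T L g)
    (hmin : ∀ h, ¬ Good T L h → (toWord g).length ≤ (toWord h).length) {l : FreeGroup α} (hl : l ∈ L)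
    (hl1 : l ≠ 1) : ¬ toWord g <+: toWord (l * g) := by
  intro hp
  have h1 : AllPre (fun h => Good T L h ∨ ∃ q, q <+: toWord g ∧ h = l * FreeGroup.mk q)
      (toWord (l * g)) := by
    apply AllPre.toWord_mul
    · intro p hp
      exact Or.inl (allPre_mem hTL hl p hp)
    · intro q hq
      exact Or.inr ⟨q, hq, rfl⟩
  have h2 := h1 _ hp
  rw [FreeGroup.mk_toWord] at h2
  rcases h2 with h2 | ⟨q, hq, h2⟩
  · exact hg h2
  · have h3 : ¬ Good T L (FreeGroup.mk q) := by
      intro h
      apply hg
      rw [h2]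
      exact good_mul hl h
    have h4 := hmin _ h3
    have h5 : (toWord (FreeGroup.mk q)).length ≤ q.length := FreeGroup.norm_mk_le
    have h6 : q = toWord g := hq.eq_of_length (le_antisymm hq.length_le (h4.trans h5))
    rw [h6, FreeGroup.mk_toWord] at h2
    exact hl1 (mul_eq_right.1 h2.symm)

theorem toWord_eq_of_reduced [DecidableEq α] {w : List (α × Bool)} (h : IsReduced w) :
    toWord (FreeGroup.mk w) = w := by
  rw [FreeGroup.toWord_mk, h.reduce_eq]

/-- (C) the first letter of `g⁻¹ l g` -/
theorem head_conj [DecidableEq α] {g l : FreeGroup α} {σ : α × Bool} {w' : List (α × Bool)}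
    (hw : toWord g = w' ++ [σ]) (hl1 : l ≠ 1) (hnp : ¬ toWord g <+: toWord (l * g)) :
    ∃ r, toWord (g⁻¹ * l * g) = (σ.1, !σ.2) :: r := by
  have hne : g⁻¹ * l * g ≠ 1 := by
    intro h
    apply hl1
    have h2 : l * g = g := by
      have : g⁻¹ * (l * g) = 1 := by rw [← mul_assoc]; exact h
      exact (inv_mul_eq_one.1 this).symm
    exact mul_eq_right.1 h2
  cases hc : toWord (g⁻¹ * l * g) with
  | nil => exact absurd (FreeGroup.toWord_eq_nil_iff.1 hc) hne
  | cons x r =>
    by_cases hx : x = (σ.1, !σ.2)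
    · exact ⟨r, by rw [hx]⟩
    · exfalso
      apply hnp
      have h1 : IsReduced (w' ++ [σ]) := by
        rw [← hw]; exact FreeGroup.isReduced_toWord
      have h2 : IsReduced (x :: r) := by
        rw [← hc]; exact FreeGroup.isReduced_toWord
      have h3 : IsReduced ([σ] ++ (x :: r)) := by
        show IsReduced (σ :: x :: r)
        rw [FreeGroup.isReduced_cons_cons]
        refine ⟨?_, h2⟩
        intro h
        by_contra h4
        apply hx
        apply Prod.ext
        · exact h.symm
        · show x.2 = !σ.2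
          cases hb : σ.2 <;> cases hb' : x.2 <;> simp_all
      have h4 : IsReduced (w' ++ [σ] ++ (x :: r)) := h1.append_overlap h3 (by simp)
      have h5 : l * g = FreeGroup.mk (w' ++ [σ] ++ (x :: r)) := by
        rw [← FreeGroup.mul_mk, ← hw, ← hc, FreeGroup.mk_toWord, FreeGroup.mk_toWord]
        group
      rw [h5, toWord_eq_of_reduced h4, hw]
      exact List.prefix_append _ _

theorem last_conj [DecidableEq α] {g l : FreeGroup α} {σ : α × Bool}
    (h : ∃ r, toWord (g⁻¹ * l⁻¹ * g) = (σ.1, !σ.2) :: r) :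
    ∃ r, toWord (g⁻¹ * l * g) = r ++ [σ] := by
  obtain ⟨r, hr⟩ := h
  have h1 : g⁻¹ * l * g = (g⁻¹ * l⁻¹ * g)⁻¹ := by group
  rw [h1, FreeGroup.toWord_inv, hr]
  refine ⟨FreeGroup.invRev r, ?_⟩
  simp [FreeGroup.invRev]

/-- the word of a list of elements of `L` -/
def WW [DecidableEq α] (g : FreeGroup α) (τ : α) (u : List (FreeGroup α)) : List (α × Bool) :=
  (u.map fun x => toWord (g⁻¹ * x * g) ++ [(τ, true)]).flatten

theorem WW_cons [DecidableEq α] (g : FreeGroup α) (τ : α) (x : FreeGroup α) (u : List (FreeGroup α)) :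
    WW g τ (x :: u) = toWord (g⁻¹ * x * g) ++ ((τ, true) :: WW g τ u) := by
  simp [WW]

theorem mk_WW [DecidableEq α] (g : FreeGroup α) (τ : α) (u : List (FreeGroup α)) :
    FreeGroup.mk (WW g τ u) = g⁻¹ * (u.map fun x => x * (g * FreeGroup.of τ * g⁻¹)).prod * g := by
  induction u with
  | nil =>
    show FreeGroup.mk [] = g⁻¹ * 1 * g
    rw [mul_one, inv_mul_cancel]
    rfl
  | cons x u ih =>
    rw [WW_cons, ← FreeGroup.mul_mk, FreeGroup.mk_toWord, List.map_cons, List.prod_cons]
    have h1 : FreeGroup.mk ((τ, true) :: WW g τ u) = FreeGroup.of τ * FreeGroup.mk (WW g τ u) := by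
      show FreeGroup.mk ([(τ, true)] ++ WW g τ u) = _
      rw [← FreeGroup.mul_mk]
      rfl
    rw [h1, ih]
    group

theorem WW_reduced [DecidableEq α] {L : Subgroup (FreeGroup α)} {g : FreeGroup α} {τ : α} {σ : α × Bool}
    (hτ : τ ≠ σ.1) (hhead : ∀ l ∈ L, l ≠ 1 → ∃ r, toWord (g⁻¹ * l * g) = (σ.1, !σ.2) :: r)
    (u : List (FreeGroup α)) (hu : ∀ x ∈ u, x ∈ L) :
    IsReduced (WW g τ u) ∧ ∀ b ∈ (WW g τ u).head?, b = (τ, true) ∨ b = (σ.1, !σ.2) := by
  induction u with
  | nil =>
    refine ⟨IsReduced.nil, ?_⟩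
    intro b hb
    simp [WW] at hb
  | cons x u ih =>
    obtain ⟨ih1, ih2⟩ := ih (fun y hy => hu y (List.mem_cons_of_mem _ hy))
    have hx := hu x List.mem_cons_self
    have hc : IsReduced ((τ, true) :: WW g τ u) := by
      unfold FreeGroup.IsReduced
      rw [List.isChain_cons]
      refine ⟨?_, ih1⟩
      intro b hb h
      rcases ih2 b hb with rfl | rfl
      · rfl
      · exact absurd h hτ
    rw [WW_cons]
    by_cases h1 : x = 1
    · have h2 : toWord (g⁻¹ * x * g) = [] := by
        rw [FreeGroup.toWord_eq_nil_iff, h1]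
        group
      rw [h2, List.nil_append]
      refine ⟨hc, ?_⟩
      intro b hb
      left
      simpa using hb.symm
    · obtain ⟨r, hr⟩ := hhead x hx h1
      have hx' : x⁻¹ ≠ 1 := by simpa using h1
      obtain ⟨r', hr'⟩ := last_conj (l := x) (hhead x⁻¹ (L.inv_mem hx) hx')
      constructor
      · unfold FreeGroup.IsReduced
        rw [List.isChain_append]
        refine ⟨FreeGroup.isReduced_toWord, hc, ?_⟩
        intro a ha b hb h
        rw [hr'] at ha
        have ha' : a = σ := by simpa using ha.symm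
        have hb' : b = (τ, true) := by simpa using hb.symm
        rw [ha', hb'] at h
        exact absurd h.symm hτ
      · intro b hb
        right
        rw [hr] at hb
        simpa using hb.symm

theorem exists_ne {a : α} (hnc : ∃ x y : FreeGroup α, x * y ≠ y * x) : ∃ τ, τ ≠ a := by
  by_contra hcon
  push Not at hcon
  obtain ⟨x, y, hxy⟩ := hnc
  have h1 : (⊤ : Subgroup (FreeGroup α)) ≤ Subgroup.zpowers (FreeGroup.of a) := by
    rw [← FreeGroup.closure_range_of, Subgroup.closure_le]
    rintro _ ⟨b, rfl⟩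
    rw [hcon b]
    exact Subgroup.mem_zpowers _
  obtain ⟨m, hm⟩ := Subgroup.mem_zpowers_iff.1 (h1 (Subgroup.mem_top x))
  obtain ⟨n, hn⟩ := Subgroup.mem_zpowers_iff.1 (h1 (Subgroup.mem_top y))
  apply hxy
  rw [← hm, ← hn]
  exact (Commute.refl (FreeGroup.of a)).zpow_zpow m n

theorem main_free {α : Type*} (L : Subgroup (FreeGroup α)) (hfg : L.FG) (hidx : L.index = 0)
    (hnc : ∃ x y : FreeGroup α, x * y ≠ y * x) : ∃ s, SepInj (L : Set (FreeGroup α)) s := by
  classical
  obtain ⟨T, hT⟩ := hfg
  obtain ⟨g, hg, hmin⟩ := exists_min (T := (T : Set (FreeGroup α))) (L := L) T.finite_toSet hidx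
  have hne : toWord g ≠ [] := by
    intro h
    apply hg
    rw [FreeGroup.toWord_eq_nil_iff.1 h]
    exact good_one
  obtain ⟨w', σ, hw⟩ : ∃ w' σ, toWord g = w' ++ [σ] :=
    ⟨_, _, (List.dropLast_append_getLast hne).symm⟩
  obtain ⟨τ, hτ⟩ := exists_ne (a := σ.1) hnc
  have hhead : ∀ l ∈ L, l ≠ 1 → ∃ r, toWord (g⁻¹ * l * g) = (σ.1, !σ.2) :: r :=
    fun l hl hl1 => head_conj hw hl1 (not_prefix hT hg hmin hl hl1)
  refine ⟨g * FreeGroup.of τ * g⁻¹, ?_⟩
  intro u
  induction u with
  | nil =>
    intro v _ _ hlen _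
    exact (List.length_eq_zero_iff.1 hlen.symm).symm
  | cons x u ih =>
    intro v hu hv hlen hprod
    cases v with
    | nil => simp at hlen
    | cons y v =>
      rw [List.map_cons, List.map_cons, List.prod_cons, List.prod_cons] at hprod
      have hx : x ∈ L := hu x List.mem_cons_self
      have hy : y ∈ L := hv y List.mem_cons_self
      have hu' : ∀ z ∈ u, z ∈ L := fun z hz => hu z (List.mem_cons_of_mem _ hz)
      have hv' : ∀ z ∈ v, z ∈ L := fun z hz => hv z (List.mem_cons_of_mem _ hz)
      by_cases hxy : x = y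
      · subst hxy
        have h1 := ih v hu' hv' (by simpa using hlen) (mul_left_cancel hprod)
        rw [h1]
      · exfalso
        have hl1 : y⁻¹ * x ≠ 1 := by
          intro h
          exact hxy (inv_mul_eq_one.1 h).symm
        have hl : y⁻¹ * x ∈ L := L.mul_mem (L.inv_mem hy) hx
        have e1 : (((y⁻¹ * x) :: u).map fun x => x * (g * FreeGroup.of τ * g⁻¹)).prod =
            ((1 :: v).map fun x => x * (g * FreeGroup.of τ * g⁻¹)).prod := by
          rw [List.map_cons, List.map_cons, List.prod_cons, List.prod_cons, one_mul]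
          have h2 := congrArg (fun z => y⁻¹ * z) hprod
          simp only [mul_assoc, inv_mul_cancel_left] at h2 ⊢
          exact h2
        have e2 : FreeGroup.mk (WW g τ ((y⁻¹ * x) :: u)) = FreeGroup.mk (WW g τ (1 :: v)) := by
          rw [mk_WW, mk_WW, e1]
        have r1 := (WW_reduced hτ hhead ((y⁻¹ * x) :: u) (by
          intro z hz
          rcases List.mem_cons.1 hz with rfl | hz
          · exact hl
          · exact hu' z hz)).1
        have r2 := (WW_reduced hτ hhead (1 :: v) (by
          intro z hz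
          rcases List.mem_cons.1 hz with rfl | hz
          · exact L.one_mem
          · exact hv' z hz)).1
        have e3 : WW g τ ((y⁻¹ * x) :: u) = WW g τ (1 :: v) := by
          rw [← toWord_eq_of_reduced r1, ← toWord_eq_of_reduced r2, e2]
        rw [WW_cons, WW_cons] at e3
        obtain ⟨r, hr⟩ := hhead _ hl hl1
        have h3 : toWord (g⁻¹ * 1 * g) = [] := by
          rw [FreeGroup.toWord_eq_nil_iff]
          group
        rw [hr, h3, List.nil_append, List.cons_append] at e3
        have h4 := (List.cons.inj e3).1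
        exact hτ (congrArg Prod.fst h4).symm

theorem mhall : S_MHALL := by
  intro F _ _ L hfg hidx hnc
  let e : F ≃* FreeGroup (IsFreeGroup.Generators F) := IsFreeGroup.toFreeGroup F
  have hfg' : (L.map e.toMonoidHom).FG := by
    classical
    obtain ⟨T, hT⟩ := hfg
    refine ⟨T.image e.toMonoidHom, ?_⟩
    rw [Finset.coe_image, ← MonoidHom.map_closure, hT]
  have hidx' : (L.map e.toMonoidHom).index = 0 := by
    rw [← hidx]
    exact Subgroup.index_map_equiv L e
  obtain ⟨x, y, hxy⟩ := hnc
  have hnc' : ∃ x y : FreeGroup (IsFreeGroup.Generators F), x * y ≠ y * x := by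
    refine ⟨e x, e y, ?_⟩
    rw [← _root_.map_mul, ← _root_.map_mul]
    exact fun h => hxy (e.injective h)
  obtain ⟨s, hs⟩ := main_free _ hfg' hidx' hnc'
  refine ⟨e.symm s, ?_⟩
  intro u v hu hv hlen hprod
  have key : ∀ w : List F, ((w.map e).map fun x => x * s).prod = e ((w.map fun x => x * e.symm s).prod) := by
    intro w
    rw [map_list_prod, List.map_map, List.map_map]
    congr 1
    apply List.map_congr_left
    intro a _
    simp
  have h1 := hs (u.map e) (v.map e) (by
    intro z hz
    obtain ⟨z', hz', rfl⟩ := List.mem_map.1 hz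
    exact Subgroup.mem_map_of_mem e.toMonoidHom (hu z' hz')) (by
    intro z hz
    obtain ⟨z', hz', rfl⟩ := List.mem_map.1 hz
    exact Subgroup.mem_map_of_mem e.toMonoidHom (hv z' hz')) (by simpa using hlen) (by
    rw [key, key, hprod])
  exact List.map_injective_iff.2 e.injective h1

end Pool.Agent.Helper50.LN2.MHALL
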